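import Pool.Agent.Helper9.Ends.Defs

/-!
# EN-3: primitives and logarithms
-/

set_option autoImplicit false

open Set Filter Metric Topology MeasureTheory
open scoped ContDiff
open Pool.Agent.Helper61.KS

namespace Pool.Agent.EN

theorem exists_prim {D : Set ℂ} (hD : IsOpen D) (hc : IsPreconnected D) {g : ℂ → ℂ}
    (hg : DifferentiableOn ℂ g D) (h : ∀ γ x, FP D γ x x → PI g γ = 0) :
    ∃ G : ℂ → ℂ, ∀ z ∈ D, HasDerivAt G (g z) z := by
  classical
  rcases D.eq_empty_or_nonempty with rfl | ⟨z0, h0⟩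
  · exact ⟨0, fun z hz => absurd hz (Set.notMem_empty z)⟩
  have hkc := hg.continuousOn
  let ρ : ℂ → ℂ := fun z => if h : ∃ γ, FP D γ z0 z then PI g h.choose else 0
  have hρ : ∀ {γ : ℝ → ℂ} {z : ℂ}, FP D γ z0 z → ρ z = PI g γ := by
    intro γ z hγ
    have hex : ∃ γ, FP D γ z0 z := ⟨γ, hγ⟩
    have e : ρ z = PI g hex.choose := dif_pos hex
    have h1 := hex.choose_spec
    have h2 := h _ _ (h1.concat hγ.rev)
    rw [FP.PI_concat h1 hγ.rev hkc, hγ.PI_rev] at h2
    rw [e]
    linear_combination h2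
  refine ⟨ρ, fun z hz => ?_⟩
  obtain ⟨r, hr, hb⟩ := Metric.isOpen_iff.1 hD z hz
  obtain ⟨K, hK⟩ := (hg.mono hb).isExactOn_ball
  obtain ⟨γ, hγ⟩ := exists_FP hD hc h0 hz
  have hloc : ρ =ᶠ[𝓝 z] fun w => ρ z + (K w - K z) := by
    filter_upwards [Metric.ball_mem_nhds z hr] with w hw
    obtain ⟨hs, hs'⟩ := seg_FP (Metric.mem_ball_self hr) hw hb
    rw [hρ (hγ.concat hs), FP.PI_concat hγ hs hkc, PI_prim hK hs hs' hkc, ← hρ hγ]
  have hd : HasDerivAt (fun w => ρ z + (K w - K z)) (g z) z :=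
    ((hK z (Metric.mem_ball_self hr)).sub_const (K z)).const_add (ρ z)
  exact hd.congr_of_eventuallyEq hloc

theorem exists_log {D : Set ℂ} (hD : IsOpen D) (hc : IsPreconnected D) (hP : HasPrim D)
    {f : ℂ → ℂ} (hf : DifferentiableOn ℂ f D) (h0 : ∀ z ∈ D, f z ≠ 0) :
    ∃ L : ℂ → ℂ, DifferentiableOn ℂ L D ∧ ∀ z ∈ D, Complex.exp (L z) = f z := by
  rcases D.eq_empty_or_nonempty with rfl | ⟨z0, hz0⟩
  · exact ⟨0, differentiableOn_empty, fun z hz => absurd hz (Set.notMem_empty z)⟩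
  have hg : DifferentiableOn ℂ (fun z => deriv f z / f z) D :=
    (hf.deriv hD).div hf h0
  obtain ⟨G, hG⟩ := hP _ hg
  have hGd : DifferentiableOn ℂ G D := fun z hz => (hG z hz).differentiableAt.differentiableWithinAt
  -- `f * exp (-G)` is constant
  have hd : ∀ z ∈ D, HasDerivAt (fun z => f z * Complex.exp (-G z)) 0 z := by
    intro z hz
    have h1 : HasDerivAt f (deriv f z) z := (hf.differentiableAt (hD.mem_nhds hz)).hasDerivAt
    have h2 := (hG z hz).neg.cexp
    have h3 := h1.mul h2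
    have h4 : deriv f z * Complex.exp (-G z) +
        f z * (Complex.exp (-G z) * -(deriv f z / f z)) = 0 := by
      have h5 : f z * (deriv f z / f z) = deriv f z := mul_div_cancel₀ _ (h0 z hz)
      linear_combination (-Complex.exp (-G z)) * h5
    rw [← h4]
    exact h3
  have hconst : ∀ z ∈ D, f z * Complex.exp (-G z) = f z0 * Complex.exp (-G z0) := by
    intro z hz
    refine hD.is_const_of_deriv_eq_zero hc
      (f := fun z => f z * Complex.exp (-G z)) ?_ ?_ hz hz0
    · exact fun z hz => (hd z hz).differentiableAt.differentiableWithinAt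
    · intro z hz
      exact (hd z hz).deriv
  have hne : f z0 * Complex.exp (-G z0) ≠ 0 :=
    mul_ne_zero (h0 z0 hz0) (Complex.exp_ne_zero _)
  refine ⟨fun z => G z + Complex.log (f z0 * Complex.exp (-G z0)), hGd.add_const _, ?_⟩
  intro z hz
  rw [Complex.exp_add, Complex.exp_log hne, ← hconst z hz, Complex.exp_neg]
  field_simp [Complex.exp_ne_zero]

end Pool.Agent.EN
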